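import Pool.Agent.helper50.NPT.Spec3

/-!
# Project NPT (MP_8f32d0_ag), row FVD: independence of the two points (with `V^m` in place of `p^m`)
-/

set_option autoImplicit false

namespace NPT

open scoped Classical
open AN
open Pool.Agent.helper53.AU

theorem FVD_symm (p : ℕ) [Fact p.Prime] {k F : Type} [Field k] [Field F] [Algebra k F]
    (P Q : Place k F) (n m : ℕ) : FV p P Q n m ↔ FV p Q P n m := by
  unfold FV
  rw [Set.pair_comm P Q, sup_comm]

theorem FVD (hFVC : FVC_stmt) (hFA : FA_stmt) (hFS : FS_stmt) : FVD_stmt := by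
  intro p _ k F _ _ _ _ _ hF g hg P Q P' Q' hPQ hPQ' n m
  have key : ∀ P Q Q' : Place k F, P ≠ Q → P ≠ Q' → (FV p P Q n m ↔ FV p P Q' n m) := by
    intro P Q Q' h h'
    obtain ⟨ι, hι⟩ := hFA k F hF P
    obtain ⟨γ, a, hK, hA⟩ := hFS p k F hF g hg P ι hι
    rw [hFVC p k F hF P Q h ι hι g γ a hK hA n m, hFVC p k F hF P Q' h' ι hι g γ a hK hA n m]
  by_cases hPP : P = P'
  · subst hPP
    exact key P Q Q' hPQ hPQ'
  · rw [key P Q P' hPQ hPP, FVD_symm p P P' n m, key P' P Q' (Ne.symm hPP) hPQ']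

end NPT
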